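import Pool.Agent.U581.FL.HypData

/-!
# The error terms of the Sato-Tate law for random hypersurfaces of even dimension are Brownian motions

Let `X_c` be the hypersurface `F_c = 0` of degree `d` in `ℙ^{n+1}` over `ℚ`, `n ≥ 2` even, `F_c` the form with the integer coefficients `c`. At a
prime `p` of good reduction `#X_c(𝔽_p) = 1 + p + ⋯ + p^n + a_p p^{n/2}`, where `1 + a_p` is the trace of the Frobenius on
`V = H^n(X_c)(n/2)`, and `a_p = a_p(c)` its trace on the primitive part. For almost all `c` the algebraic monodromy group acts on the primitive part as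
the full orthogonal group `O(b)` (Beauville), and the class functions `φ(tr g)` of the Sato-Tate conjecture have, for polynomials `φ` of degree
at most `b / 2`, the mean value `∫ φ(x) dγ(x)`, `γ` the standard normal law (Diaconis and Shahshahani).
The conjecture asks for `∑_{p ≤ X} (φ(a_p) - ∫ φ dγ) = o(π(X))`.

The theorem: let `φ_1, …, φ_k` be polynomials of degree at most `(d + 1) / 4` which are orthonormal for `γ` and orthogonal to the constants
(for example the normalised Hermite polynomials), and let `P` be a finite set of primes `≤ y`. For random `c` in the box `|c_μ| ≤ H` the partial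
sums of `φ_i(a_p(c))` over the good `p ∈ P`, in increasing order and divided by `|P|^{1/2}`, form `k` random polygonal paths on `[0, 1]`. They converge
in distribution, in the space of `k`-tuples of continuous functions on `[0, 1]`, to `k` independent Brownian motions, when `|P| → ∞` and
`log H / log y → ∞`: the errors behave, as functions of the number of the primes, exactly as for independent random matrices of `O(b)`.
-/

set_option autoImplicit false

open MeasureTheory ProbabilityTheory
open scoped BoundedContinuousFunction NNReal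

namespace Pool.Agent.Results.MP_32ceeb_nt.BrownianErrorTerm

/-- The monomials of degree `d` in the variables `x_0, …, x_N`, given by their exponents. -/
abbrev Exponent (N d : ℕ) : Type := {m : Fin (N + 1) → Fin (d + 1) // ∑ i, (m i : ℕ) = d}

/-- The form of degree `d` in `N + 1` variables with the coefficients `c`. -/
noncomputable def form {N d : ℕ} {R : Type} [CommSemiring R] (c : Exponent N d → R) :
    MvPolynomial (Fin (N + 1)) R :=
  ∑ m, MvPolynomial.C (c m) * ∏ i, MvPolynomial.X i ^ (m.1 i : ℕ)

/-- The hypersurface `F = 0` in the projective space over an algebraically closed field is smooth. -/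
def IsSmooth {N : ℕ} {K : Type} [Field K] (F : MvPolynomial (Fin (N + 1)) K) : Prop :=
  ∀ x : Fin (N + 1) → K, x ≠ 0 → MvPolynomial.eval x F = 0 →
    ∃ i, MvPolynomial.eval x (MvPolynomial.pderiv i F) ≠ 0

/-- The hypersurface with the coefficients `c` has good reduction at the prime `p`: it is smooth modulo `p`. -/
def IsGood {N d : ℕ} (c : Exponent N d → ℤ) (p : ℕ) : Prop :=
  ∃ h : p.Prime, haveI : Fact p.Prime := ⟨h⟩
    IsSmooth (form fun μ => ((c μ : ℤ) : AlgebraicClosure (ZMod p)))

/-- The number of the points modulo the prime `p` of the hypersurface in `ℙ^N`: the number of the nonzero vectors at which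
the form vanishes divided by `p - 1`. -/
noncomputable def numPoints {N d : ℕ} (c : Exponent N d → ℤ) (p : ℕ) : ℝ :=
  (Nat.card {x : Fin (N + 1) → ZMod p // x ≠ 0 ∧
    MvPolynomial.eval x (form fun μ => (c μ : ZMod p)) = 0} : ℝ) / (p - 1)

/-- The trace `a_p` of the Frobenius on the primitive part of `H^n(n/2)`, `n` even, of the hypersurface of dimension `n`:
`#X(𝔽_p) = 1 + p + ⋯ + p^n + a_p p^{n/2}`. -/
noncomputable def trace {n d : ℕ} (c : Exponent (n + 1) d → ℤ) (p : ℕ) : ℝ :=
  (numPoints c p - ∑ i ∈ Finset.range (n + 1), (p : ℝ) ^ i) / √(p : ℝ) ^ n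

/-- The mean value of the polynomial `φ` for the standard normal law. -/
noncomputable def mean (φ : Polynomial ℝ) : ℝ := ∫ x, φ.eval x ∂(gaussianReal 0 1)

open Classical in
/-- The polygonal path of the partial sums of `φ(a_p)` over the primes `p ∈ P` of good reduction, divided by `|P| ^ (1 / 2)`: the
factor of the term of `p` is `0` for `|P| t ≤ r` and `1` for `|P| t ≥ r + 1`, where `r` is the number of the members of `P` which
are smaller than `p`, and it is linear in between. At the time `m / |P|` the path is the sum over the good ones among the `m` smallest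
members of `P`. -/
noncomputable def path {n d : ℕ} (φ : Polynomial ℝ) (P : Finset ℕ) (c : Exponent (n + 1) d → ℤ) :
    C(unitInterval, ℝ) where
  toFun t := (∑ p ∈ P.filter (IsGood c), φ.eval (trace c p) *
    max 0 (min 1 (P.card * (t : ℝ) - (P.filter (fun q => q < p)).card))) / √P.card
  continuous_toFun := by fun_prop

/-- The mean value of `f` over the integer vectors `c` with coordinates of absolute value at most `H`. -/
noncomputable def average {ι : Type} [Fintype ι] [DecidableEq ι] (H : ℕ) (f : (ι → ℤ) → ℝ) : ℝ :=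
  (∑ c ∈ Fintype.piFinset (fun _ : ι => Finset.Icc (-(H : ℤ)) H), f c) / (2 * H + 1 : ℝ) ^ Fintype.card ι

/-- The path of `B` on `[0, 1]` as a continuous function (and `0` if it is not continuous). -/
noncomputable def unitPath {Ω : Type} (B : ℝ≥0 → Ω → ℝ) (ω : Ω) : C(unitInterval, ℝ) :=
  ContinuousMap.mkD (fun t : unitInterval => B ⟨(t : ℝ), t.2.1⟩ ω) 0

open Pool.Agent.U62.SH Pool.Agent.Y722.HS in
theorem good_iff {n d : ℕ} (c : Exponent (n + 1) d → ℤ) (p : ℕ) : IsGood c p ↔ GR n d p (red p c) := by
  unfold IsGood GR Pool.Agent.Y722.HS.red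
  refine exists_congr fun h => ?_
  simp only [map_intCast]
  rfl

open Pool.Agent.U62.SH Pool.Agent.Y722.HS in
theorem trace_eq {n d : ℕ} (c : Exponent (n + 1) d → ℤ) (p : ℕ) : trace c p = tn n d p (red p c) :=
  rfl

open Pool.Agent.U62.SH Pool.Agent.Y722.HS Pool.Agent.N534.XH in
theorem path_eq {n d k : ℕ} (φ : Fin k → Polynomial ℝ) (i : Fin k) (P : Finset ℕ)
    (c : Exponent (n + 1) d → ℤ) : path (φ i) P c =
      Pool.Agent.U581.FL.upath (fun i p (x : Mon (n + 1) d → ZMod p) => (φ i).eval (tn n d p x)) (GR n d) P c i := by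
  classical
  ext t
  unfold Pool.Agent.U581.FL.upath
  rw [Pool.Agent.U581.FL.ppath_apply]
  change (∑ p ∈ P.filter (IsGood c), (φ i).eval (trace c p) *
    max 0 (min 1 (P.card * (t : ℝ) - (P.filter (fun q => q < p)).card))) / √P.card = _
  congr 1
  rw [Finset.sum_filter]
  refine Finset.sum_congr rfl fun p _ => ?_
  by_cases h : IsGood c p
  · have h2 : ib (GR n d) p (red p c) = 0 := by
      unfold ib
      rw [if_pos ((good_iff c p).1 h)]
    rw [if_pos h, h2, sub_zero, one_mul]
    rfl
  · have h2 : ib (GR n d) p (red p c) = 1 := by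
      unfold ib
      rw [if_neg fun h' => h ((good_iff c p).2 h')]
    rw [if_neg h, h2, sub_self, zero_mul, zero_mul]

/-- **The error terms of the Sato-Tate law for random hypersurfaces of even dimension are Brownian motions.** -/
theorem result (n d k : ℕ) (hn : Even n) (hn2 : 2 ≤ n) (hd1 : 1 ≤ d) (φ : Fin k → Polynomial ℝ)
    (hd : ∀ i, 4 * (φ i).natDegree ≤ d + 1) (h0 : ∀ i, mean (φ i) = 0)
    (h1 : ∀ i j, mean (φ i * φ j) = if i = j then 1 else 0)
    {Ω : Type} [MeasurableSpace Ω] (μ : Measure Ω) [IsProbabilityMeasure μ] (B : Fin k → ℝ≥0 → Ω → ℝ)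
    (hB : ∀ i, IsBrownianReal (B i) μ) (hI : iIndepFun (fun i ω t => B i t ω) μ)
    (F : (Fin k → C(unitInterval, ℝ)) →ᵇ ℝ) (ε : ℝ) (hε : 0 < ε) :
    ∃ K : ℕ, ∀ (P : Finset ℕ) (y H : ℕ), (∀ p ∈ P, p.Prime ∧ p ≤ y) → K ≤ P.card → y ^ K ≤ H →
      |average H (fun c : Exponent (n + 1) d → ℤ => F (fun i => path (φ i) P c)) -
        ∫ ω, F (fun i => unitPath (B i) ω) ∂μ| ≤ ε := by
  letI : MeasurableSpace C(unitInterval, ℝ) := borel _
  haveI : BorelSpace C(unitInterval, ℝ) := ⟨rfl⟩
  obtain ⟨C, hC⟩ := Pool.Agent.U581.FL.hyp_data n d hn2 φ hd h0 h1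
  obtain ⟨D, hD, hG⟩ := Pool.Agent.U581.FL.hyp_good n d hd1
  obtain ⟨K, hK⟩ := Pool.Agent.U581.FL.unb_main hC _ hD hG
    (⟨hB, hI⟩ : Pool.Agent.U581.FL.IndBrown B μ) F hε
  refine ⟨K, fun P y H hP hPc hH => ?_⟩
  have h := hK P y H hP hPc hH
  have e : (fun c : Exponent (n + 1) d → ℤ => F (fun i => path (φ i) P c)) = fun c =>
      F (Pool.Agent.U581.FL.upath (fun i p (x : Pool.Agent.Y722.HS.Mon (n + 1) d → ZMod p) =>
        (φ i).eval (Pool.Agent.U62.SH.tn n d p x)) (Pool.Agent.U62.SH.GR n d) P c) := by
    funext c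
    congr 1
    funext i
    exact path_eq φ i P c
  rw [e]
  exact h

end Pool.Agent.Results.MP_32ceeb_nt.BrownianErrorTerm
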