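import Pool.Agent.U62.LD.Poly

/-!
# The Sato-Tate law for products of random curves: moderate deviations of the errors

Let `C_1, ..., C_N` be curves of the genera `g_1, ..., g_N`, `C_b : Y ^ 2 = X ^ (2 g_b + 1) + ... `, with random integer coefficients, and
let `X` be the product of these curves (or of powers of them).  For generic curves the Sato-Tate group of the cohomology of `X` in an even
degree is a quotient of the product of the groups `USp(2 g_b)` by a subgroup of its centre `{± 1} ^ N`, and in the degree `2`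
(for `X = C_1 x ... x C_N`, `N ≥ 2`) by `{± 1}`: its class functions are the class functions on the product of the groups `USp(2 g_b)`
which do not change if all the signs are changed.

For every `b` let `φ_(b, 0) = 1, φ_(b, 1), ..., φ_(b, M)` be polynomials of degree at most `g_b + 1` which are orthonormal for the law of the
trace in `USp(2 g_b)` (for instance Hermite polynomials).  The products of the `φ_(b, m_b)(tr γ_b)` for the multi-indices
`m = (m_1, ..., m_N)` are orthonormal class functions on the product of the groups; those which are even functions come from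
the Sato-Tate group of `H^2(X)`.  We find the exact exponents of the joint moderate deviations of the errors in the Sato-Tate law for
these class functions over an arbitrary finite set `P` of primes, with arbitrary weights, up to the size `|P| ^ (2 / 3)`: they are those of
independent Gaussian variables.

The moments up to the order `2 g + 3` of the trace of a random matrix in `USp(2 g)` are those of the standard normal law, except that
the moment of order `2 g + 2` is smaller by one; the expectation below is defined by these numbers.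
-/

set_option autoImplicit false

namespace Pool.Agent.Results.MP_32ceeb_nt.ModerateDeviations

open Finset Polynomial

variable {N M k : ℕ}

/-- The coefficients of the equations of `N` curves of the genera `g_1, ..., g_N`. -/
abbrev Coeff (g : Fin N → ℕ) : Type := Σ b : Fin N, Fin (2 * g b + 1)

/-- The number of the solutions of `Y ^ 2 = X ^ (2 g + 1) + c_(2 g) X ^ (2 g) + ... + c_0` in the field with `p` elements. -/
noncomputable def points (g p : ℕ) (c : Fin (2 * g + 1) → ℤ) : ℕ :=
  Nat.card {P : ZMod p × ZMod p // P.2 ^ 2 = P.1 ^ (2 * g + 1) + ∑ i, (c i : ZMod p) * P.1 ^ (i : ℕ)}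

/-- `p` is odd and `X ^ (2 g + 1) + ... + c_0` is separable modulo `p`, so that the curve with this equation has good reduction
at `p`. -/
def IsGood (g p : ℕ) (c : Fin (2 * g + 1) → ℤ) : Prop :=
  p ≠ 2 ∧ (Polynomial.X ^ (2 * g + 1) + ∑ i, Polynomial.C (c i : ZMod p) * Polynomial.X ^ (i : ℕ)).Separable

/-- The trace of the Frobenius on `H^1` of the curve, divided by `- p ^ (1 / 2)`: the number `#C(F_p) - (p + 1)` divided by
`p ^ (1 / 2)` (there is one point at infinity, so that `#C(F_p) = points g p c + 1`). -/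
noncomputable def normTrace (g p : ℕ) (c : Fin (2 * g + 1) → ℤ) : ℝ :=
  (((points g p c : ℝ) + 1) - ((p : ℝ) + 1)) / Real.sqrt p

/-- The curve number `b`. -/
def curve {g : Fin N → ℕ} (c : Coeff g → ℤ) (b : Fin N) : Fin (2 * g b + 1) → ℤ := fun k => c ⟨b, k⟩

open Classical in
/-- The weighted sum of the products of the `φ_(b, e b)` at the normalised traces of the curves `C_b`, `b = 1, ..., N`, over the
primes `p ∈ P` at which all the curves have good reduction. -/
noncomputable def total {g : Fin N → ℕ} (φ : Fin N → Fin (M + 1) → ℝ[X]) (e : Fin N → Fin (M + 1)) (P : Finset ℕ) (w : ℕ → ℝ)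
    (c : Coeff g → ℤ) : ℝ :=
  ∑ p ∈ P.filter (fun p => ∀ b, IsGood (g b) p (curve c b)), w p * ∏ b, (φ b (e b)).eval (normTrace (g b) p (curve c b))

/-- The moment of order `m ≤ 2 g + 3` of the trace of a random matrix in `USp(2 g)`. -/
noncomputable def moment (g m : ℕ) : ℝ :=
  (if Even m then (Nat.doubleFactorial (m - 1) : ℝ) else 0) - if m = 2 * g + 2 then 1 else 0

/-- The expectation of `ψ(tr γ)` for a random matrix `γ` in `USp(2 g)`, for polynomials `ψ` of degree at most `2 g + 3`. -/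
noncomputable def expectation (g : ℕ) (ψ : ℝ[X]) : ℝ := ψ.sum fun m a => a * moment g m

/-- The polynomials `φ_(b, 0) = 1, φ_(b, 1), ..., φ_(b, M)` have the degree at most `g_b + 1` and are orthonormal for the law of
the trace in `USp(2 g_b)`, for all `b`. -/
structure IsOrthonormal (g : Fin N → ℕ) (φ : Fin N → Fin (M + 1) → ℝ[X]) : Prop where
  degree : ∀ b s, (φ b s).natDegree ≤ g b + 1
  one : ∀ b, φ b 0 = 1
  inner : ∀ b s t, expectation (g b) (φ b s * φ b t) = if s = t then 1 else 0

/-- The proportion of the integer vectors `c` with coordinates of absolute value at most `H` which have the property `Q`. -/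
noncomputable def proportion {ι : Type} [Fintype ι] (H : ℕ) (Q : (ι → ℤ) → Prop) : ℝ :=
  ({c : ι → ℤ | (∀ i, |c i| ≤ H) ∧ Q c}.ncard : ℝ) / (2 * H + 1 : ℝ) ^ Fintype.card ι

/-- The number `x` lies between `exp (- (R + ε) l)` and `exp (- (R - ε) l)`. -/
def Between (l : ℕ) (R ε x : ℝ) : Prop := Real.exp (-(R + ε) * l) ≤ x ∧ x ≤ Real.exp (-(R - ε) * l)

lemma card_affine {F : Type} [Field F] [Fintype F] [DecidableEq F] (hF : ringChar F ≠ 2) (f : F → F) :
    (Nat.card {P : F × F // P.2 ^ 2 = f P.1} : ℝ) = (Fintype.card F : ℝ) + ∑ x : F, (quadraticChar F (f x) : ℝ) := by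
  classical
  have h1 : Nat.card {P : F × F // P.2 ^ 2 = f P.1} = ∑ x : F, Nat.card {y : F // y ^ 2 = f x} := by
    rw [← Nat.card_sigma]
    refine Nat.card_congr ⟨fun P => ⟨P.1.1, ⟨P.1.2, P.2⟩⟩, fun P => ⟨(P.1, P.2.1), P.2.2⟩, fun _ => rfl, fun _ => rfl⟩
  have h2 : ∀ x : F, ((Nat.card {y : F // y ^ 2 = f x} : ℕ) : ℤ) = quadraticChar F (f x) + 1 := by
    intro x
    rw [← quadraticChar_card_sqrts hF (f x)]
    congr 1
    rw [Nat.card_eq_fintype_card, Fintype.card_subtype]
    congr 1
    ext y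
    simp
  rw [h1]
  push_cast
  have h3 : ∀ x : F, ((Nat.card {y : F // y ^ 2 = f x} : ℕ) : ℝ) = (quadraticChar F (f x) : ℝ) + 1 := by
    intro x
    have := h2 x
    exact_mod_cast this
  rw [sum_congr rfl (fun x _ => h3 x), sum_add_distrib, sum_const, card_univ, nsmul_eq_mul, mul_one]
  ring

lemma vl_cast (p : ℕ) [Fact p.Prime] {g : Fin N → ℕ} (c : Coeff g → ℤ) (i : Fin N) :
    (fun k => ((Pool.Agent.U62.LD.vl (fun k => Pool.Agent.Y722.HS.red p c ⟨i, k⟩) k : ℕ) : ZMod p)) =
      fun k => (curve c i k : ZMod p) := by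
  funext k
  unfold Pool.Agent.U62.LD.vl Pool.Agent.Y722.HS.red curve
  exact ZMod.natCast_zmod_val _

lemma local_eq (p : ℕ) (hp : p.Prime) {g : Fin N → ℕ} (c : Coeff g → ℤ) (i : Fin N) :
    (IsGood (g i) p (curve c i) →
      Pool.Agent.U62.RB.gd (g i) p (Pool.Agent.U62.LD.vl fun k => Pool.Agent.Y722.HS.red p c ⟨i, k⟩) = 1 ∧
      Pool.Agent.Y57.FD.HM.tr (g i) p (Pool.Agent.U62.LD.vl fun k => Pool.Agent.Y722.HS.red p c ⟨i, k⟩) =
        normTrace (g i) p (curve c i)) ∧
    (¬ IsGood (g i) p (curve c i) →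
      Pool.Agent.U62.RB.gd (g i) p (Pool.Agent.U62.LD.vl fun k => Pool.Agent.Y722.HS.red p c ⟨i, k⟩) = 0) := by
  classical
  haveI : Fact p.Prime := ⟨hp⟩
  have e := vl_cast p c i
  have epol : (Pool.Agent.Y57.FD.HM.pol p (D := 2 * g i + 1) (fun k => (curve c i k : ZMod p))) =
    Polynomial.X ^ (2 * g i + 1) + ∑ k, Polynomial.C (curve c i k : ZMod p) * Polynomial.X ^ (k : ℕ) := rfl
  unfold Pool.Agent.U62.RB.gd Pool.Agent.Y57.FD.HM.tr
  constructor
  · intro h
    rw [dif_pos ⟨hp, h.1⟩, dif_pos ⟨hp, h.1⟩, e, epol, if_pos h.2, if_pos h.2]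
    refine ⟨rfl, ?_⟩
    have h3 : (points (g i) p (curve c i) : ℝ) = (p : ℝ) + ∑ x : ZMod p, (quadraticChar (ZMod p)
        (Pool.Agent.Y57.FD.Mom.val (ZMod p) (2 * g i + 1) (fun k => (curve c i k : ZMod p)) x) : ℝ) := by
      unfold points
      rw [card_affine (Pool.Agent.V11210.G2.ringChar_zmod p h.1)
        (fun x => x ^ (2 * g i + 1) + ∑ k, (curve c i k : ZMod p) * x ^ (k : ℕ)), ZMod.card]
      rfl
    unfold normTrace
    rw [h3, ZMod.card]
    ring
  · intro h
    by_cases h2 : p = 2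
    · rw [dif_neg (fun h' => h'.2 h2)]
    · rw [dif_pos ⟨hp, h2⟩, e, epol, if_neg (fun h' => h ⟨h2, h'⟩)]

lemma total_eq {g : Fin N → ℕ} (φ : Fin N → Fin (M + 1) → ℝ[X]) (e : Fin N → Fin (M + 1)) (P : Finset ℕ)
    (hP : ∀ p ∈ P, p.Prime) (w : ℕ → ℝ) (c : Coeff g → ℤ) :
    total φ e P w c = ∑ p ∈ P, w p * Pool.Agent.U62.LD.prF g φ e p (Pool.Agent.Y722.HS.red p c) := by
  classical
  unfold total
  rw [Finset.sum_filter]
  refine Finset.sum_congr rfl fun p hp => ?_
  unfold Pool.Agent.U62.LD.prF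
  by_cases h : ∀ b, IsGood (g b) p (curve c b)
  · rw [if_pos h]
    congr 1
    refine Finset.prod_congr rfl fun b _ => ?_
    obtain ⟨i1, i2⟩ := (local_eq p (hP p hp) c b).1 (h b)
    rw [i1, i2, one_mul]
  · rw [if_neg h]
    push Not at h
    obtain ⟨b, hb⟩ := h
    rw [Finset.prod_eq_zero (Finset.mem_univ b) (by rw [(local_eq p (hP p hp) c b).2 hb, zero_mul]), mul_zero]

/-- **The joint moderate deviations of the errors in the Sato-Tate law for products of curves.** Let the polynomials `φ_(b, s)` be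
orthonormal and let `m^(1), ..., m^(k)` be different nonzero multi-indices, `β_1, ..., β_k ≥ 0`, `δ > 0` and `ε > 0`.
There is a `K` with the following property. Let `l ≥ K` be an integer, `P` a set of at least `l ^ 3` primes `p ≤ y`, `|w_p| ≤ 1`, `p ∈ P`,
weights with `∑ w_p ^ 2 ≥ δ |P|`, `σ_i = ± 1` signs and `H ≥ y ^ (K l)`. Then the proportion of the coefficient vectors in the box of the
height `H` for which, for all `i`, the sum of `w_p ∏_b φ_(b, m^(i)_b)(x_b(p))` over the primes of good reduction in `P`, `x_b(p)` being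
the normalised trace of `C_b` at `p`, multiplied by `σ_i`, is at least `β_i (l ∑ w_p ^ 2) ^ (1 / 2)` lies between
`exp (- (R + ε) l)` and `exp (- (R - ε) l)`, where `R = ∑ β_i ^ 2 / 2`. -/
theorem result (g : Fin N → ℕ) (φ : Fin N → Fin (M + 1) → ℝ[X]) (hφ : IsOrthonormal g φ) (m : Fin k → Fin N → Fin (M + 1))
    (hm : Function.Injective m) (hm0 : ∀ i, m i ≠ 0) (β : Fin k → ℝ) (hβ : ∀ i, 0 ≤ β i) (δ ε : ℝ) (hδ : 0 < δ) (hε : 0 < ε) :
    ∃ K : ℕ, ∀ (P : Finset ℕ) (w : ℕ → ℝ) (σ : Fin k → ℝ) (y H l : ℕ), (∀ p ∈ P, p.Prime ∧ p ≤ y) → K ≤ l → l ^ 3 ≤ P.card →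
      (∀ p ∈ P, |w p| ≤ 1) → δ * P.card ≤ ∑ p ∈ P, w p ^ 2 → (∀ i, σ i = 1 ∨ σ i = -1) → y ^ (K * l) ≤ H →
      Between l (∑ i, β i ^ 2 / 2) ε (proportion H (fun c : Coeff g → ℤ => ∀ i, β i * √(l * ∑ p ∈ P, w p ^ 2) ≤
        σ i * total φ (m i) P w c)) := by
  have ho : Pool.Agent.U62.LD.Ort2 g φ 0 := ⟨hφ.degree, hφ.one, hφ.inner⟩
  obtain ⟨K, hK⟩ := Pool.Agent.U62.LD.prF_mdp ho m hm hm0 hβ hδ hε
  refine ⟨K, fun P w σ y H l hP hl hlP hw hws hσ hH => ?_⟩
  have h := hK P w y H l σ hP hw hws hσ hl hlP hH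
  have e : (fun c : Coeff g → ℤ => ∀ i, β i * √(l * ∑ p ∈ P, w p ^ 2) ≤ σ i * total φ (m i) P w c) =
      fun c => ∀ i, β i * √(l * ∑ p ∈ P, w p ^ 2) ≤
        σ i * ∑ p ∈ P, w p * Pool.Agent.U62.LD.prF g φ (m i) p (Pool.Agent.Y722.HS.red p c) := by
    funext c
    refine propext (forall_congr' fun i => ?_)
    rw [total_eq φ (m i) P (fun p hp => (hP p hp).1) w c]
  rw [e]
  exact h

end Pool.Agent.Results.MP_32ceeb_nt.ModerateDeviations
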